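import Mathlib
import Pool.Agent.Helper23.IM.Path
import Pool.Agent.Helper23.IM.Defs

/-! Piece LA: the rank inequality. -/

set_option autoImplicit false

namespace IM

open FreeGroup

/-- If the group of the connected finite graph `E` is generated by conjugates of `K` loops, then
`#E - #V + 1 ≤ #K` (abelianise). -/
theorem rank_inequality {A V K : Type*} [MulAction (FreeGroup A) V] [Fintype K]
    (E : Finset (A × V)) (VK : Finset V) (v₀ : V) (hv₀ : v₀ ∈ VK)
    (hsrc : ∀ e ∈ E, e.2 ∈ VK) (htgt : ∀ e ∈ E, tgt e ∈ VK)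
    (reach : ∀ v ∈ VK, ∃ g, Conn (E : Set (A × V)) v₀ g v)
    (bv : K → V) (w : K → List (A × Bool))
    (hw : ∀ k, IsPath (E : Set (A × V)) (bv k) (w k)) (hw' : ∀ k, endp (bv k) (w k) = bv k)
    (gen : FK v₀ (E : Set (A × V)) ≤ Subgroup.closure
      {g | ∃ x k, Conn (E : Set (A × V)) v₀ x (bv k) ∧ g = x * FreeGroup.mk (w k) * x⁻¹}) :
    E.card + 1 ≤ Fintype.card K + VK.card := by
  classical
  obtain ⟨κ, hκ⟩ : ∃ κ : A × V → Multiplicative ({x // x ∈ E} → ℚ), ∀ e (h : e ∈ E),
      κ e = Multiplicative.ofAdd (Pi.single ⟨e, h⟩ 1) :=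
    ⟨fun e => if h : e ∈ E then Multiplicative.ofAdd (Pi.single ⟨e, h⟩ 1) else 1,
      fun e h => by simp [h]⟩
  obtain ⟨ch, hch⟩ : ∃ ch : V → FreeGroup A → ({x // x ∈ E} → ℚ),
      ∀ v g, ch v g = Multiplicative.toAdd (wtF κ v g) := ⟨_, fun _ _ => rfl⟩
  have ch_mul : ∀ v g h, ch v (g * h) = ch v g + ch (g⁻¹ • v) h := by
    intro v g h
    rw [hch, hch, hch, wtF_mul, toAdd_mul]
  have ch_inv : ∀ v g, ch (g⁻¹ • v) g⁻¹ = - ch v g := by
    intro v g
    rw [hch, hch, wtF_inv, toAdd_inv]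
  have ch_edge : ∀ e (h : e ∈ E), ch e.2 (FreeGroup.mk [(e.1, true)]) = Pi.single ⟨e, h⟩ 1 := by
    intro e h
    rw [hch, wtF_mk, wt_cons, wt_nil, mul_one]
    simp only [if_true]
    rw [edge_true, hκ _ h]
    rfl
  set W : Submodule ℚ ({x // x ∈ E} → ℚ) :=
    Submodule.span ℚ (Set.range fun k => ch (bv k) (FreeGroup.mk (w k))) with hW
  have hWrank : Module.finrank ℚ W ≤ Fintype.card K := finrank_range_le_card _
  -- loops are in `W`
  have hloop : ∀ g, Conn (E : Set (A × V)) v₀ g v₀ → ch v₀ g ∈ W := by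
    intro g hg
    have hg' := gen hg
    have key : g⁻¹ • v₀ = v₀ ∧ ch v₀ g ∈ W := by
      refine Subgroup.closure_induction (p := fun g _ => g⁻¹ • v₀ = v₀ ∧ ch v₀ g ∈ W)
        ?_ ?_ ?_ ?_ hg'
      · rintro g ⟨x, k, hx, rfl⟩
        have h1 := hx.eq
        have h2 : (FreeGroup.mk (w k))⁻¹ • bv k = bv k := hw' k
        have h3 : x • bv k = v₀ := by rw [← h1, smul_inv_smul]
        constructor
        · rw [mul_inv_rev, mul_inv_rev, inv_inv, mul_smul, mul_smul, h1, h2, h3]
        · rw [ch_mul, ch_mul, mul_inv_rev, mul_smul, h1, h2]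
          have h4 := ch_inv v₀ x
          rw [h1] at h4
          rw [h4]
          have h5 : ch v₀ x + ch (bv k) (FreeGroup.mk (w k)) + -ch v₀ x
              = ch (bv k) (FreeGroup.mk (w k)) := by abel
          rw [h5]
          exact Submodule.subset_span ⟨k, rfl⟩
      · constructor
        · simp
        · have := ch_mul v₀ 1 1
          rw [mul_one, inv_one, one_smul, left_eq_add] at this
          rw [this]
          exact W.zero_mem
      · rintro g h _ _ ⟨h1, h2⟩ ⟨h3, h4⟩
        constructor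
        · rw [mul_inv_rev, mul_smul, h1, h3]
        · rw [ch_mul, h1]
          exact W.add_mem h2 h4
      · rintro g _ ⟨h1, h2⟩
        have h3 := ch_inv v₀ g
        rw [h1] at h3
        constructor
        · rw [inv_inv]
          conv_lhs => rw [← h1]
          rw [smul_inv_smul]
        · rw [h3]
          exact W.neg_mem h2
    exact key.2
  choose! γ hγ using reach
  set f : V → (({x // x ∈ E} → ℚ) ⧸ W) := fun v => W.mkQ (ch v₀ (γ v)) with hf
  have hf0 : f v₀ = 0 := by
    rw [hf]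
    simp only [Submodule.mkQ_apply, Submodule.Quotient.mk_eq_zero]
    exact hloop _ (hγ v₀ hv₀)
  have hedge : ∀ e (h : e ∈ E), W.mkQ (Pi.single ⟨e, h⟩ 1) = f (tgt e) - f e.2 := by
    intro e h
    have h1 := hγ e.2 (hsrc e h)
    have h2 := hγ (tgt e) (htgt e h)
    have h3 : Conn (E : Set (A × V)) e.2 (FreeGroup.mk [(e.1, true)]) (tgt e) := by
      have : edge e.2 (e.1, true) ∈ (E : Set (A × V)) := by
        rw [edge_true]; exact h
      exact Conn.of_edge this
    have h4 := hloop _ ((h1.trans h3).trans h2.symm)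
    rw [ch_mul, ch_mul, h1.eq, (h1.trans h3).eq, ch_edge e h] at h4
    have h5 := ch_inv v₀ (γ (tgt e))
    rw [h2.eq] at h5
    rw [h5] at h4
    rw [hf]
    simp only
    rw [← map_sub, ← sub_eq_zero, ← map_sub, Submodule.mkQ_apply, Submodule.Quotient.mk_eq_zero]
    have h6 : Pi.single ⟨e, h⟩ 1 - (ch v₀ (γ (tgt e)) - ch v₀ (γ e.2))
        = ch v₀ (γ e.2) + Pi.single ⟨e, h⟩ 1 + -ch v₀ (γ (tgt e)) := by abel
    rw [h6]
    exact h4
  have hspan : (⊤ : Submodule ℚ (({x // x ∈ E} → ℚ) ⧸ W)) ≤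
      Submodule.span ℚ (((VK.erase v₀).image f : Finset _) : Set (({x // x ∈ E} → ℚ) ⧸ W)) := by
    have hfv : ∀ v ∈ VK, f v ∈
        Submodule.span ℚ (((VK.erase v₀).image f : Finset _) : Set (({x // x ∈ E} → ℚ) ⧸ W)) := by
      intro v hv
      by_cases h : v = v₀
      · rw [h, hf0]; exact Submodule.zero_mem _
      · apply Submodule.subset_span
        rw [Finset.mem_coe]
        exact Finset.mem_image_of_mem _ (Finset.mem_erase.2 ⟨h, hv⟩)
    intro q _
    obtain ⟨m, rfl⟩ := W.mkQ_surjective q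
    have hm : m = ∑ e : {x // x ∈ E}, m e • (Pi.single e 1 : {x // x ∈ E} → ℚ) := by
      ext i
      rw [Finset.sum_apply]
      simp [Pi.single_apply]
    rw [hm, map_sum]
    apply Submodule.sum_mem
    rintro ⟨e, he⟩ _
    rw [map_smul]
    apply Submodule.smul_mem
    rw [hedge e he]
    exact Submodule.sub_mem _ (hfv _ (htgt e he)) (hfv _ (hsrc e he))
  have h1 : Module.finrank ℚ (({x // x ∈ E} → ℚ) ⧸ W) ≤ VK.card - 1 := by
    have h2 : Module.finrank ℚ (⊤ : Submodule ℚ (({x // x ∈ E} → ℚ) ⧸ W)) ≤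
        ((VK.erase v₀).image f).card := by
      refine (Submodule.finrank_mono hspan).trans ?_
      exact finrank_span_finset_le_card _
    rw [finrank_top] at h2
    refine h2.trans ?_
    rw [← Finset.card_erase_of_mem hv₀]
    exact Finset.card_image_le
  have h2 := Submodule.finrank_quotient_add_finrank W
  rw [Module.finrank_fintype_fun_eq_card, Fintype.card_coe] at h2
  have h3 : 0 < VK.card := Finset.card_pos.2 ⟨v₀, hv₀⟩
  omega

end IM
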